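import Pool.Agent.H18.N6F.Targets

/-! Row FDEN of `n6_modules`: the number field is dense in its completions. -/

set_option autoImplicit false

open Polynomial NumberField IsDedekindDomain Matrix Pool.Agent.H32.QC Pool.Agent.H34.N6
  Pool.Agent.H18.N6F

namespace Pool.Agent.H79.N6F

theorem pf_DEN (hWAP : T_WAP) : T_DEN := by
  classical
  intro K _ _ w
  rw [Metric.denseRange_iff]
  intro x r hr
  obtain ⟨z, hz, -⟩ := hWAP K {w} (Function.update (fun _ => 0) w x) (fun _ => 0) r hr
  refine ⟨z, ?_⟩
  have h1 := hz w (Finset.mem_singleton_self w)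
  rw [Function.update_self] at h1
  rw [dist_comm, dist_eq_norm]
  exact h1

end Pool.Agent.H79.N6F
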